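import Pool.Agent.HAR.Stmts

/-!
# Squad HAR, row CHO: lower bound for binomial coefficients
-/

namespace Pool.Agent.HAR.H45

open Finset

/-- the terms of the binomial formula -/
def T (s m i : ℕ) : ℕ := s ^ i * m ^ (s + m - i) * (s + m).choose i

theorem T_rec (s m i : ℕ) (hi : i < s + m) :
    T s m (i + 1) * ((i + 1) * m) = T s m i * ((s + m - i) * s) := by
  unfold T
  have h1 := Nat.choose_succ_right_eq (s + m) i
  have h2 : m ^ (s + m - i) = m ^ (s + m - (i + 1)) * m := by
    rw [← pow_succ]
    congr 1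
    omega
  calc s ^ (i + 1) * m ^ (s + m - (i + 1)) * (s + m).choose (i + 1) * ((i + 1) * m)
      = s ^ (i + 1) * (m ^ (s + m - (i + 1)) * m) * ((s + m).choose (i + 1) * (i + 1)) := by ring
    _ = s ^ (i + 1) * m ^ (s + m - i) * ((s + m).choose i * (s + m - i)) := by rw [← h2, h1]
    _ = s ^ i * m ^ (s + m - i) * (s + m).choose i * ((s + m - i) * s) := by ring

theorem T_up {s m i : ℕ} (hm : 0 < m) (hi : i < s) : T s m i ≤ T s m (i + 1) := by
  have h := T_rec s m i (by omega)
  have h1 : (i + 1) * m ≤ (s + m - i) * s := by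
    calc (i + 1) * m ≤ s * (s + m - i) := Nat.mul_le_mul (by omega) (by omega)
      _ = (s + m - i) * s := mul_comm _ _
  have h2 : T s m i * ((i + 1) * m) ≤ T s m (i + 1) * ((i + 1) * m) := by
    rw [h]
    exact Nat.mul_le_mul_left _ h1
  exact Nat.le_of_mul_le_mul_right h2 (by positivity)

theorem T_down {s m i : ℕ} (hm : 0 < m) (hi : s ≤ i) (hi2 : i < s + m) :
    T s m (i + 1) ≤ T s m i := by
  have h := T_rec s m i hi2
  have h1 : (s + m - i) * s ≤ (i + 1) * m := by
    calc (s + m - i) * s ≤ m * (i + 1) := Nat.mul_le_mul (by omega) (by omega)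
      _ = (i + 1) * m := mul_comm _ _
  have h2 : T s m (i + 1) * ((i + 1) * m) ≤ T s m i * ((i + 1) * m) := by
    rw [h]
    exact Nat.mul_le_mul_left _ h1
  exact Nat.le_of_mul_le_mul_right h2 (by positivity)

theorem T_max {s m : ℕ} (hm : 0 < m) (i : ℕ) (hi : i ≤ s + m) : T s m i ≤ T s m s := by
  rcases le_total i s with h | h
  · obtain ⟨k, rfl⟩ := Nat.exists_eq_add_of_le h
    clear hi h
    have key : ∀ k' i', i' + k' ≤ i + k → T (i + k) m i' ≤ T (i + k) m (i' + k') := by
      intro k'
      induction k' with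
      | zero => intro i' _; simp
      | succ k' ih =>
        intro i' h'
        refine (ih i' (by omega)).trans ?_
        exact T_up hm (by omega)
    exact key k i le_rfl
  · obtain ⟨k, rfl⟩ := Nat.exists_eq_add_of_le h
    induction k with
    | zero => simp
    | succ k ih =>
      have h3 : s ≤ s + k := Nat.le_add_right _ _
      have h4 : s + k < s + m := by omega
      exact (T_down hm h3 h4).trans (ih h4.le h3)

theorem cho : ChoStmt := by
  intro n s hs hsn
  obtain ⟨m, rfl⟩ := Nat.exists_eq_add_of_le hsn.le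
  have hm : 0 < m := by omega
  have h1 : (s + m) ^ (s + m) = ∑ i ∈ range (s + m + 1), T s m i := by
    rw [add_pow]
    rfl
  have h2 : ∑ i ∈ range (s + m + 1), T s m i ≤ ∑ i ∈ range (s + m + 1), T s m s := by
    apply Finset.sum_le_sum
    intro i hi
    rw [mem_range] at hi
    exact T_max hm i (by omega)
  rw [Finset.sum_const, card_range, smul_eq_mul] at h2
  rw [h1]
  refine h2.trans (le_of_eq ?_)
  unfold T
  rw [show s + m - s = m by omega]
  ring

end Pool.Agent.HAR.H45
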